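import Pool.Agent.H122R2.N6.Inv

set_option autoImplicit false

namespace Pool.Agent.W909.RK

open Pool.Agent.H122R2.N6 (Bt cd4)

/-- number of bits -/
def pop4 (c : ℕ) : ℕ := c % 2 + c / 2 % 2 + c / 4 % 2 + c / 8 % 2

theorem pop4_cd4 {x y z w : ℕ} (hx : Bt x) (hy : Bt y) (hz : Bt z) (hw : Bt w) :
    pop4 (cd4 x y z w) = x + y + z + w := by
  rcases hx with rfl | rfl <;> rcases hy with rfl | rfl <;> rcases hz with rfl | rfl <;>
    rcases hw with rfl | rfl <;> rfl

end Pool.Agent.W909.RK
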