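import Pool.Agent.W909.RK.Defs
import Pool.Agent.W909.RK.Pop
import Pool.Agent.H122R2.N6.Bound

/-! From integer weights to `H3`. -/

set_option autoImplicit false
open Finset

namespace Pool.Agent.W909.RK

open Pool.Agent.H122R2.N6 (Sy Sv Bt cd4)


theorem h3_of_avg (wt : ℕ → ℤ) (X S : ℤ) (hS : 0 < S)
    (h : ∀ (V : Type) [Fintype V] (E : V → V → V → ℕ), Sy E → 0 < Fintype.card V →
      15 * Sv E (fun c => wt (pop4 c)) ≤ -X * (Fintype.card V : ℤ) ^ 4) :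
    H3 (fun k => (wt k : ℝ) / S) ((X : ℝ) / (15 * S)) := by
  intro V _ E hE hn
  have h1 := h V E hE hn
  have hS' : (0 : ℝ) < S := by exact_mod_cast hS
  have h2 : Sv E (fun c => wt (pop4 c)) =
      ∑ a, ∑ b, ∑ c', ∑ d, wt (E a b c' + E a b d + E a c' d + E b c' d) := by
    unfold Sv
    refine sum_congr rfl fun a _ => sum_congr rfl fun b _ => sum_congr rfl fun c' _ =>
      sum_congr rfl fun d _ => ?_
    show wt (pop4 (cd4 (E a b c') (E a b d) (E a c' d) (E b c' d))) = _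
    rw [pop4_cd4 (hE.b _ _ _) (hE.b _ _ _) (hE.b _ _ _) (hE.b _ _ _)]
  rw [h2] at h1
  have h3 : (15 : ℝ) * ∑ a, ∑ b, ∑ c', ∑ d, (wt (E a b c' + E a b d + E a c' d + E b c' d) : ℝ) ≤
      -X * (Fintype.card V : ℝ) ^ 4 := by exact_mod_cast h1
  have h4 : ∑ a, ∑ b, ∑ c', ∑ d, (wt (E a b c' + E a b d + E a c' d + E b c' d) : ℝ) / S =
      (∑ a, ∑ b, ∑ c', ∑ d, (wt (E a b c' + E a b d + E a c' d + E b c' d) : ℝ)) / S := by
    simp only [sum_div]
  show ∑ a, ∑ b, ∑ c', ∑ d, (wt (E a b c' + E a b d + E a c' d + E b c' d) : ℝ) / S ≤ _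
  rw [h4, div_le_iff₀ hS']
  have h5 : -((X : ℝ) / (15 * S)) * (Fintype.card V : ℝ) ^ 4 * S =
      (-X * (Fintype.card V : ℝ) ^ 4) / 15 := by
    field_simp
  rw [h5]
  linarith

end Pool.Agent.W909.RK
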