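import Pool.Agent.W909.RK.Defs

set_option autoImplicit false
open Finset

namespace Pool.Agent.W909.RK

open Pool.Agent.H120R2.Clique

open scoped Classical in
theorem image_erase {V : Type} {r : ℕ} (x : Fin (r + 1) → V) (i : Fin (r + 1)) :
    ((univ : Finset (Fin (r + 1))).erase i).image x =
      (univ : Finset (Fin r)).image (fun j => x (i.succAbove j)) := by
  ext v
  simp only [mem_image, mem_erase, mem_univ, and_true, true_and]
  constructor
  · rintro ⟨j, hj, rfl⟩
    obtain ⟨j', rfl⟩ := Fin.exists_succAbove_eq hj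
    exact ⟨j', rfl⟩
  · rintro ⟨j, rfl⟩
    exact ⟨i.succAbove j, Fin.succAbove_ne i j, rfl⟩

theorem blk_eq {V : Type} {r : ℕ} (G : Finset (Finset V)) (x : Fin (r + 1) → V)
    (i : Fin (r + 1)) : blk G x i = tup G (fun j => x (i.succAbove j)) := by
  unfold blk tup
  rw [image_erase]

/-- (C1) every coordinate gives the same number of blocks -/
theorem sum_blk {V : Type} [Fintype V] {r : ℕ} (G : Finset (Finset V)) (i : Fin (r + 1)) :
    ∑ x : Fin (r + 1) → V, (blk G x i : ℝ) = (Fintype.card V : ℝ) * ∑ y : Fin r → V, (tup G y : ℝ) := by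
  classical
  rw [← (Fin.insertNthEquiv (fun _ : Fin (r + 1) => V) i).sum_comp]
  rw [Fintype.sum_prod_type]
  have h : ∀ (v : V) (y : Fin r → V),
      (blk G ((Fin.insertNthEquiv (fun _ : Fin (r + 1) => V) i) (v, y)) i : ℝ) = (tup G y : ℝ) := by
    intro v y
    rw [blk_eq]
    congr 2
    funext j
    simp [Fin.insertNthEquiv]
  simp_rw [h]
  rw [Finset.sum_const, Finset.card_univ, nsmul_eq_mul]

theorem blk_mem {V : Type} [DecidableEq V] {N : ℕ} (G : Finset (Finset V)) (x : Fin N → V)
    (i : Fin N) (h : blk G x i = 0) : (univ.erase i).image x ∈ G := by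
  unfold blk non at h
  split_ifs at h with h2
  have e : (univ.erase i).image x =
      @Finset.image _ _ (fun a b => Classical.propDecidable (a = b)) x (univ.erase i) := by
    ext v
    simp only [mem_image]
  rw [e]
  exact h2

theorem sum_pos_of {n r : ℕ} (hr : 2 ≤ r) (G : Finset (Finset (Fin n)))
    (hG : ∀ A ∈ G, A.card = r) (hK : ¬ HasClique G r (r + 1)) (x : Fin (r + 1) → Fin n) :
    ¬ ∀ i, blk G x i = 0 := by
  classical
  intro h
  have hmem : ∀ i, (univ.erase i).image x ∈ G := fun i => blk_mem G x i (h i)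
  have hinj : ∀ i, Set.InjOn x ((univ.erase i : Finset (Fin (r + 1))) : Set (Fin (r + 1))) := by
    intro i
    rw [← Finset.card_image_iff, hG _ (hmem i), Finset.card_erase_of_mem (mem_univ _),
      Finset.card_univ, Fintype.card_fin]
    omega
  have hx : Function.Injective x := by
    intro a b hab
    by_contra hne
    obtain ⟨c, hc⟩ : ∃ c : Fin (r + 1), c ∉ ({a, b} : Finset (Fin (r + 1))) := by
      by_contra hcon
      push Not at hcon
      have h1 : (univ : Finset (Fin (r + 1))) ⊆ {a, b} := fun c _ => hcon c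
      have h2 := Finset.card_le_card h1
      rw [Finset.card_univ, Fintype.card_fin] at h2
      have h3 := Finset.card_le_two (a := a) (b := b)
      omega
    rw [mem_insert, mem_singleton, not_or] at hc
    exact hne (hinj c (by simp [Ne.symm hc.1]) (by simp [Ne.symm hc.2]) hab)
  refine hK ⟨univ.image x, ?_, ?_⟩
  · rw [Finset.card_image_of_injective _ hx, Finset.card_univ, Fintype.card_fin]
  · intro B hB
    rw [mem_powersetCard] at hB
    obtain ⟨v, hv1, hv2⟩ : ∃ v ∈ univ.image x, v ∉ B := by
      by_contra hcon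
      push Not at hcon
      have h2 := Finset.card_le_card (show univ.image x ⊆ B from hcon)
      rw [Finset.card_image_of_injective _ hx, Finset.card_univ, Fintype.card_fin] at h2
      omega
    obtain ⟨i, -, rfl⟩ := mem_image.mp hv1
    have h1 : B ⊆ (univ.erase i).image x := by
      intro u hu
      obtain ⟨j, -, rfl⟩ := mem_image.mp (hB.1 hu)
      refine mem_image.mpr ⟨j, ?_, rfl⟩
      rw [mem_erase]
      exact ⟨fun hji => hv2 (hji ▸ hu), mem_univ _⟩
    have h2 : B = (univ.erase i).image x :=
      Finset.eq_of_subset_of_card_le h1 (by rw [hG _ (hmem i), hB.2])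
    rw [h2]
    exact hmem i

/-- (C2) the covering condition -/
theorem cover {n r : ℕ} (hr : 2 ≤ r) (G : Finset (Finset (Fin n))) (hG : ∀ A ∈ G, A.card = r)
    (hK : ¬ HasClique G r (r + 1)) (x : Fin (r + 1) → Fin n) : 1 ≤ ∑ i, blk G x i := by
  by_contra hcon
  have h0 : ∑ i, blk G x i = 0 := by omega
  exact sum_pos_of hr G hG hK x fun i => (Finset.sum_eq_zero_iff.mp h0) i (mem_univ i)

end Pool.Agent.W909.RK
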