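import Mathlib
import Pool.Agent.H120R2.CliqueDefs
import Pool.Agent.H122R2.N6.Inv

/-! Links of `(r-3)`-sets of `r`-graphs: definitions. -/

set_option autoImplicit false
open Finset

namespace Pool.Agent.W909.RK

open Pool.Agent.H120R2.Clique

open scoped Classical in
/-- indicator of the non-edges among sets of vertices -/
noncomputable def non {V : Type} (G : Finset (Finset V)) (s : Finset V) : ℕ := if s ∈ G then 0 else 1

open scoped Classical in
/-- `x : Fin N → V`, the block indicator of the tuple `x` without the coordinate `i` -/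
noncomputable def blk {V : Type} {N : ℕ} (G : Finset (Finset V)) (x : Fin N → V) (i : Fin N) : ℕ :=
  non G ((univ.erase i).image x)

open scoped Classical in
/-- the same for a whole tuple -/
noncomputable def tup {V : Type} {N : ℕ} (G : Finset (Finset V)) (y : Fin N → V) : ℕ :=
  non G (univ.image y)

/-- the inequality for 3-graphs with weights `w 0, …, w 4` -/
def H3 (w : ℕ → ℝ) (c : ℝ) : Prop :=
  ∀ (V : Type) [Fintype V] (E : V → V → V → ℕ), Pool.Agent.H122R2.N6.Sy E → 0 < Fintype.card V →
    ∑ a, ∑ b, ∑ c', ∑ d, w (E a b c' + E a b d + E a c' d + E b c' d) ≤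
      -c * (Fintype.card V : ℝ) ^ 4

end Pool.Agent.W909.RK
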