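import Pool.Agent.W909.RK.Defs

/-! From blocks to the Turan density (helper231). -/

set_option autoImplicit false
open Finset Filter Topology

namespace Pool.Agent.W909.RK

open Pool.Agent.H120R2.Clique

open scoped Classical in
/-- every edge gives at least `r!` ordered tuples -/
theorem orders_le_r {V : Type} [Fintype V] {r : ℕ} (G : Finset (Finset V))
    (h4 : ∀ A ∈ G, A.card = r) :
    r.factorial * G.card ≤ (univ.filter fun x : Fin r → V => univ.image x ∈ G).card := by
  have h1 : ∀ e ∈ G, r.factorial ≤ ((univ.filter fun x : Fin r → V => univ.image x ∈ G).filter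
      fun x => univ.image x = e).card := by
    intro e he
    have hc : Fintype.card (Fin r ↪ e) = r.factorial := by
      rw [Fintype.card_embedding_eq, Fintype.card_coe, h4 e he, Fintype.card_fin,
        Nat.descFactorial_self]
    rw [← hc, ← Finset.card_univ]
    refine Finset.card_le_card_of_injOn (fun f i => (f i : V)) ?_ ?_
    · intro f _
      have hx : univ.image (fun i => ((f i : e) : V)) = e := by
        apply Finset.eq_of_subset_of_card_le
        · intro t ht
          rw [mem_image] at ht
          obtain ⟨i, -, rfl⟩ := ht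
          exact (f i).2
        · have hinj : Function.Injective (fun i : Fin r => ((f i : e) : V)) :=
            fun i j hij => f.injective (Subtype.ext hij)
          rw [card_image_of_injective _ hinj, card_univ, Fintype.card_fin, h4 e he]
      simp only [coe_filter, mem_filter, mem_univ, true_and, Set.mem_ofPred_eq]
      exact ⟨by rw [hx]; exact he, hx⟩
    · intro f _ g _ hfg
      apply DFunLike.ext
      intro i
      exact Subtype.ext (congrFun hfg i)
  rw [Finset.card_eq_sum_card_fiberwise (f := fun x : Fin r → V => univ.image x)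
    (t := G) (by intro x hx; simpa using hx)]
  calc r.factorial * G.card = ∑ e ∈ G, r.factorial := by rw [sum_const, smul_eq_mul, mul_comm]
    _ ≤ _ := sum_le_sum h1

/-- the number of ordered tuples that are not edges -/
theorem tup_sum_le {V : Type} [Fintype V] {r : ℕ} (G : Finset (Finset V))
    (h4 : ∀ A ∈ G, A.card = r) :
    ∑ y : Fin r → V, (tup G y : ℝ) + (r.factorial : ℝ) * (G.card : ℝ) ≤
      (Fintype.card V : ℝ) ^ r := by
  classical
  have h1 : r.factorial * G.card ≤ (univ.filter fun x : Fin r → V => tup G x = 0).card := by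
    refine (orders_le_r G h4).trans (Finset.card_le_card ?_)
    intro x hx
    rw [mem_filter] at hx ⊢
    refine ⟨hx.1, ?_⟩
    unfold tup non
    rw [if_pos hx.2]
  have h2 : ∀ x : Fin r → V, (tup G x : ℝ) + (if tup G x = 0 then 1 else 0) = 1 := by
    intro x
    have h0 : tup G x = 0 ∨ tup G x = 1 := by
      unfold tup non
      split_ifs <;> simp
    rcases h0 with h | h <;> simp [h]
  have h3 : ∑ x : Fin r → V, ((tup G x : ℝ) + (if tup G x = 0 then 1 else 0)) =
      (Fintype.card V : ℝ) ^ r := by
    rw [sum_congr rfl fun x _ => h2 x, sum_const, card_univ, Fintype.card_fun, Fintype.card_fin]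
    simp
  have h5 : ∑ x : Fin r → V, (if tup G x = 0 then (1 : ℝ) else 0) =
      ((univ.filter fun x : Fin r → V => tup G x = 0).card : ℝ) := by
    rw [card_filter]; push_cast; rfl
  rw [sum_add_distrib, h5] at h3
  have h6 : (r.factorial : ℝ) * (G.card : ℝ) ≤
      ((univ.filter fun x : Fin r → V => tup G x = 0).card : ℝ) := by
    exact_mod_cast h1
  linarith

/-- `r! C(n,r) / n^r` tends to one -/
theorem choose_tendsto_r (r : ℕ) :
    Tendsto (fun n : ℕ => ((r.factorial : ℝ) * (n.choose r : ℝ)) / (n : ℝ) ^ r) atTop (𝓝 1) := by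
  have h1 := isEquivalent_choose r
  rw [Asymptotics.isEquivalent_iff_tendsto_one] at h1
  · refine h1.congr' ?_
    filter_upwards [eventually_ge_atTop 1] with n hn
    have hn' : (0 : ℝ) < (n : ℝ) ^ r := by positivity
    have hr' : (0 : ℝ) < (r.factorial : ℝ) := by exact_mod_cast r.factorial_pos
    simp only [Pi.div_apply]
    field_simp
  · filter_upwards [eventually_ge_atTop 1] with n hn
    have hn' : (0 : ℝ) < (n : ℝ) ^ r := by positivity
    have hr' : (0 : ℝ) < (r.factorial : ℝ) := by exact_mod_cast r.factorial_pos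
    positivity

/-- (C3) from blocks to the Turan density -/
theorem density_le {r : ℕ} (hr : 1 ≤ r) (c : ℝ)
    (h : ∀ n : ℕ, 0 < n → ∀ G : Finset (Finset (Fin n)), (∀ A ∈ G, A.card = r) →
      ¬ HasClique G r (r + 1) → c * (n : ℝ) ^ r ≤ ∑ y : Fin r → Fin n, (tup G y : ℝ)) :
    turanDensity r (r + 1) ≤ 1 - c := by
  classical
  have key : ∀ n : ℕ, 0 < n → (r.factorial : ℝ) * (ex n r (r + 1) : ℝ) ≤ (1 - c) * (n : ℝ) ^ r := by
    intro n hn
    have hne : ((((univ : Finset (Fin n)).powersetCard r).powerset).filter
        (fun G => ¬ HasClique G r (r + 1))).Nonempty := by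
      refine ⟨∅, ?_⟩
      rw [mem_filter]
      refine ⟨by simp, ?_⟩
      rintro ⟨A, hA, hA'⟩
      have h1 : (A.powersetCard r).card = (r + 1).choose r := by rw [card_powersetCard, hA]
      have h2 : 0 < (r + 1).choose r := Nat.choose_pos (by omega)
      rw [← h1] at h2
      obtain ⟨B, hB⟩ := Finset.card_pos.1 h2
      simpa using hA' hB
    obtain ⟨G, hG, he⟩ := Finset.exists_mem_eq_sup _ hne Finset.card
    have hex : ex n r (r + 1) = G.card := by
      unfold ex
      convert he
    rw [mem_filter, mem_powerset] at hG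
    have hr4 : ∀ A ∈ G, A.card = r := fun A hA => (mem_powersetCard.mp (hG.1 hA)).2
    have h1 := h n hn G hr4 hG.2
    have h2 := tup_sum_le G hr4
    rw [Fintype.card_fin] at h2
    rw [hex]
    linarith
  have h1 := (ratio_tendsto r (r + 1)).mul (choose_tendsto_r r)
  rw [mul_one] at h1
  refine le_of_tendsto h1 ?_
  filter_upwards [eventually_ge_atTop (max r 1)] with n hn
  have hn1 : 1 ≤ n := le_trans (le_max_right _ _) hn
  have hnr : r ≤ n := le_trans (le_max_left _ _) hn
  have hn' : (0 : ℝ) < (n : ℝ) ^ r := by positivity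
  have hc : (0 : ℝ) < (n.choose r : ℝ) := by exact_mod_cast Nat.choose_pos hnr
  have e : (ex n r (r + 1) : ℝ) / (n.choose r : ℝ) * ((r.factorial : ℝ) * (n.choose r : ℝ) / (n : ℝ) ^ r)
      = (r.factorial : ℝ) * (ex n r (r + 1) : ℝ) / (n : ℝ) ^ r := by
    field_simp
  rw [e, div_le_iff₀ hn']
  exact key n hn1

end Pool.Agent.W909.RK
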