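import Pool.Agent.W909.RK.Defs

/-! The three-graph inequality applied to links (part RK-B). -/

set_option autoImplicit false
open Finset

namespace Pool.Agent.W909.RK

open Pool.Agent.H120R2.Clique

theorem sum_upd {V : Type} [Fintype V] {N : ℕ} (F : (Fin N → V) → ℝ) (a : Fin N) :
    ∑ x : Fin N → V, ∑ v : V, F (Function.update x a v) =
      (Fintype.card V : ℝ) * ∑ x : Fin N → V, F x := by
  let e : ((Fin N → V) × V) ≃ ((Fin N → V) × V) :=
    { toFun := fun p => (Function.update p.1 a p.2, p.1 a)
      invFun := fun p => (Function.update p.1 a p.2, p.1 a)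
      left_inv := by intro p; ext <;> simp
      right_inv := by intro p; ext <;> simp }
  have h1 : ∑ p : (Fin N → V) × V, F (e p).1 = ∑ p : (Fin N → V) × V, F p.1 :=
    Equiv.sum_comp e (fun p => F p.1)
  rw [Fintype.sum_prod_type, Fintype.sum_prod_type] at h1
  refine h1.trans ?_
  simp only [Finset.sum_const, Finset.card_univ, nsmul_eq_mul]
  rw [Finset.mul_sum]

open scoped Classical in
theorem img_erase {V : Type} {N : ℕ} (Q : Finset (Fin N)) (a b c d : Fin N)
    (hmem : ∀ i, i ∈ Q ↔ i = a ∨ i = b ∨ i = c ∨ i = d) (had : a ≠ d) (hbd : b ≠ d) (hcd : c ≠ d)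
    (y : Fin N → V) :
    (univ.erase d).image y =
      insert (y a) (insert (y b) (insert (y c) ((univ.filter (· ∉ Q)).image y))) := by
  ext u
  simp only [mem_image, mem_erase, mem_univ, and_true, mem_insert, mem_filter, true_and]
  constructor
  · rintro ⟨i, hi, rfl⟩
    by_cases h : i ∈ Q
    · rcases (hmem i).1 h with rfl | rfl | rfl | rfl
      · exact Or.inl rfl
      · exact Or.inr (Or.inl rfl)
      · exact Or.inr (Or.inr (Or.inl rfl))
      · exact absurd rfl hi
    · exact Or.inr (Or.inr (Or.inr ⟨i, h, rfl⟩))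
  · rintro (rfl | rfl | rfl | ⟨i, hi, rfl⟩)
    · exact ⟨a, had, rfl⟩
    · exact ⟨b, hbd, rfl⟩
    · exact ⟨c, hcd, rfl⟩
    · refine ⟨i, fun e => hi ((hmem i).2 (Or.inr (Or.inr (Or.inr e)))), rfl⟩

open scoped Classical in
/-- (B) the three-graph inequality applied to the links of the tuples outside `Q` -/
theorem sum_link {V : Type} [Fintype V] (hn : 0 < Fintype.card V) {N : ℕ} (G : Finset (Finset V)) (w : ℕ → ℝ) (c : ℝ)
    (h : H3 w c) (Q : Finset (Fin N)) (hQ : Q.card = 4) :
    ∑ x : Fin N → V, w (∑ i ∈ Q, blk G x i) ≤ -c * (Fintype.card V : ℝ) ^ N := by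
  obtain ⟨p, t, hpt, hins, ht⟩ := Finset.card_eq_succ.1 hQ
  obtain ⟨q, r, s, hqr, hqs, hrs, rfl⟩ := Finset.card_eq_three.1 ht
  simp only [mem_insert, mem_singleton, not_or] at hpt
  obtain ⟨hpq, hpr, hps⟩ := hpt
  have hmem : ∀ i, i ∈ Q ↔ i = p ∨ i = q ∨ i = r ∨ i = s := by
    intro i
    rw [← hins]
    simp only [mem_insert, mem_singleton]
  set F : (Fin N → V) → ℝ := fun x => w (∑ i ∈ Q, blk G x i) with hF
  have hV : (0 : ℝ) < Fintype.card V := by exact_mod_cast hn
  have key : ∀ x : Fin N → V, ∑ v1 : V, ∑ v2 : V, ∑ v3 : V, ∑ v4 : V,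
      F (Function.update (Function.update (Function.update (Function.update x p v1) q v2) r v3)
        s v4) ≤ -c * (Fintype.card V : ℝ) ^ 4 := by
    intro x
    set S : Finset V := (univ.filter (· ∉ Q)).image x with hS
    set E : V → V → V → ℕ := fun u v z => non G (insert u (insert v (insert z S))) with hE
    have hSy : Pool.Agent.H122R2.N6.Sy E := by
      refine ⟨?_, ?_, ?_⟩
      · intro u v z
        show Pool.Agent.H122R2.N6.Bt (non G _)
        unfold non
        split_ifs
        · exact Or.inl rfl
        · exact Or.inr rfl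
      · intro u v z
        show non G _ = non G _
        rw [Finset.insert_comm]
      · intro u v z
        show non G _ = non G _
        rw [Finset.insert_comm z v]
    have h4 := h V E hSy hn
    refine le_trans (le_of_eq ?_) h4
    refine Finset.sum_congr rfl fun v1 _ => Finset.sum_congr rfl fun v2 _ =>
      Finset.sum_congr rfl fun v3 _ => Finset.sum_congr rfl fun v4 _ => ?_
    set y : Fin N → V := Function.update (Function.update (Function.update
      (Function.update x p v1) q v2) r v3) s v4 with hy
    have yp : y p = v1 := by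
      rw [hy, Function.update_of_ne hps, Function.update_of_ne hpr, Function.update_of_ne hpq,
        Function.update_self]
    have yq : y q = v2 := by
      rw [hy, Function.update_of_ne hqs, Function.update_of_ne hqr, Function.update_self]
    have yr : y r = v3 := by
      rw [hy, Function.update_of_ne hrs, Function.update_self]
    have ys : y s = v4 := by
      rw [hy, Function.update_self]
    have hyS : (univ.filter (· ∉ Q)).image y = S := by
      rw [hS]
      refine Finset.image_congr ?_
      intro i hi
      have hi' : i ∉ Q := by simpa using hi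
      rw [hmem] at hi'
      simp only [not_or] at hi'
      obtain ⟨h1, h2, h3, h4'⟩ := hi'
      rw [hy, Function.update_of_ne h4', Function.update_of_ne h3, Function.update_of_ne h2,
        Function.update_of_ne h1]
    have b_s : blk G y s = E v1 v2 v3 := by
      rw [blk, img_erase Q p q r s hmem hps hqs hrs y, hyS, yp, yq, yr]
    have b_r : blk G y r = E v1 v2 v4 := by
      rw [blk, img_erase Q p q s r (fun i => by rw [hmem i]; tauto) hpr hqr hrs.symm y, hyS,
        yp, yq, ys]
    have b_q : blk G y q = E v1 v3 v4 := by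
      rw [blk, img_erase Q p r s q (fun i => by rw [hmem i]; tauto) hpq hqr.symm hqs.symm y, hyS,
        yp, yr, ys]
    have b_p : blk G y p = E v2 v3 v4 := by
      rw [blk, img_erase Q q r s p (fun i => by rw [hmem i]; tauto) (Ne.symm hpq) (Ne.symm hpr)
        (Ne.symm hps) y, hyS, yq, yr, ys]
    have hsum : ∑ i ∈ Q, blk G y i = blk G y p + (blk G y q + (blk G y r + blk G y s)) := by
      rw [← hins, Finset.sum_insert (by simp [hpq, hpr, hps]),
        Finset.sum_insert (by simp [hqr, hqs]), Finset.sum_insert (by simp [hrs]),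
        Finset.sum_singleton]
    show w (∑ i ∈ Q, blk G y i) = _
    rw [hsum, b_p, b_q, b_r, b_s]
    congr 1
    ring
  have h5 : (Fintype.card V : ℝ) ^ 4 * ∑ x : Fin N → V, F x =
      ∑ x : Fin N → V, ∑ v1 : V, ∑ v2 : V, ∑ v3 : V, ∑ v4 : V,
      F (Function.update (Function.update (Function.update (Function.update x p v1) q v2) r v3)
        s v4) := by
    rw [sum_upd (fun x => ∑ v2 : V, ∑ v3 : V, ∑ v4 : V,
      F (Function.update (Function.update (Function.update x q v2) r v3) s v4)) p,
      sum_upd (fun x => ∑ v3 : V, ∑ v4 : V,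
      F (Function.update (Function.update x r v3) s v4)) q,
      sum_upd (fun x => ∑ v4 : V, F (Function.update x s v4)) r,
      sum_upd (fun x => F x) s]
    ring
  have h6 : (Fintype.card V : ℝ) ^ 4 * ∑ x : Fin N → V, F x ≤
      (Fintype.card V : ℝ) ^ 4 * (-c * (Fintype.card V : ℝ) ^ N) := by
    rw [h5]
    refine (Finset.sum_le_sum fun x _ => key x).trans (le_of_eq ?_)
    rw [Finset.sum_const, Finset.card_univ, nsmul_eq_mul, Fintype.card_fun, Fintype.card_fin]
    push_cast
    ring
  exact le_of_mul_le_mul_left h6 (by positivity)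

end Pool.Agent.W909.RK
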