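import Pool.Agent.W909.RK.Quads
import Pool.Agent.W909.RK.SumLink
import Pool.Agent.W909.RK.Cover
import Pool.Agent.W909.RK.DensLe

/-! Assembly: from an inequality for 3-graphs to the Turan density of `K_{r+1}^r`. -/

set_option autoImplicit false
open Finset

namespace Pool.Agent.W909.RK

open Pool.Agent.H120R2.Clique

theorem blk_bit {V : Type} {N : ℕ} (G : Finset (Finset V)) (x : Fin N → V) (i : Fin N) :
    blk G x i = 0 ∨ blk G x i = 1 := by
  unfold blk non
  split_ifs <;> simp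

theorem turan_le {r : ℕ} (hr : 3 ≤ r) (w : ℕ → ℝ) (c : ℝ) (h : H3 w c)
    (hp : ∀ m : ℕ, 1 ≤ m → m ≤ r + 1 →
      -(((r + 1).choose 4 : ℝ) * (m / (r + 1))) ≤
        ∑ k ∈ range 5, ((m.choose k * (r + 1 - m).choose (4 - k) : ℕ) : ℝ) * w k) :
    turanDensity r (r + 1) ≤ 1 - c := by
  classical
  refine density_le (by omega) c ?_
  intro n hn G hG hK
  have hcard : Fintype.card (Fin n) = n := Fintype.card_fin n
  have hn' : (0 : ℝ) < n := by exact_mod_cast hn
  set K : ℝ := ((r + 1).choose 4 : ℝ) with hKdef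
  have hKpos : 0 < K := by
    rw [hKdef]; exact_mod_cast Nat.choose_pos (by omega)
  -- upper bound
  have up : ∑ Q ∈ (univ : Finset (Fin (r + 1))).powersetCard 4, ∑ x : Fin (r + 1) → Fin n,
      w (∑ i ∈ Q, blk G x i) ≤ K * (-c * (n : ℝ) ^ (r + 1)) := by
    have h1 : ∀ Q ∈ (univ : Finset (Fin (r + 1))).powersetCard 4,
        ∑ x : Fin (r + 1) → Fin n, w (∑ i ∈ Q, blk G x i) ≤ -c * (n : ℝ) ^ (r + 1) := by
      intro Q hQ
      have := sum_link (V := Fin n) (by rw [hcard]; exact hn) G w c h Q (mem_powersetCard.mp hQ).2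
      rwa [hcard] at this
    refine (sum_le_sum h1).trans_eq ?_
    rw [sum_const, card_powersetCard, card_univ, Fintype.card_fin, nsmul_eq_mul]
  -- lower bound
  have low : ∑ x : Fin (r + 1) → Fin n, -(K * ((∑ i, (blk G x i : ℝ)) / (r + 1))) ≤
      ∑ x : Fin (r + 1) → Fin n, ∑ Q ∈ (univ : Finset (Fin (r + 1))).powersetCard 4,
        w (∑ i ∈ Q, blk G x i) := by
    refine sum_le_sum fun x _ => ?_
    rw [sum_quads (fun i => blk G x i) (blk_bit G x) w]
    have hm1 := cover (by omega) G hG hK x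
    have hm2 : ∑ i, blk G x i ≤ r + 1 := by
      calc ∑ i, blk G x i ≤ ∑ _i : Fin (r + 1), 1 :=
            sum_le_sum fun i _ => by rcases blk_bit G x i with h | h <;> omega
        _ = r + 1 := by simp
    have := hp _ hm1 hm2
    push_cast at this ⊢
    exact this
  rw [sum_comm] at low
  have tot : ∑ x : Fin (r + 1) → Fin n, -(K * ((∑ i, (blk G x i : ℝ)) / (r + 1))) =
      -(K * ((n : ℝ) * ∑ y : Fin r → Fin n, (tup G y : ℝ))) := by
    rw [sum_neg_distrib, ← mul_sum, ← sum_div, sum_comm]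
    rw [sum_congr rfl fun i _ => sum_blk G i, hcard, sum_const, card_univ, Fintype.card_fin,
      nsmul_eq_mul]
    push_cast
    field_simp
  rw [tot] at low
  have h3 := low.trans up
  have h4 : c * (n : ℝ) ^ (r + 1) ≤ (n : ℝ) * ∑ y : Fin r → Fin n, (tup G y : ℝ) := by
    by_contra hcon
    push Not at hcon
    nlinarith
  have h5 : (n : ℝ) * (c * (n : ℝ) ^ r) ≤ (n : ℝ) * ∑ y : Fin r → Fin n, (tup G y : ℝ) := by
    calc (n : ℝ) * (c * (n : ℝ) ^ r) = c * (n : ℝ) ^ (r + 1) := by ring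
      _ ≤ _ := h4
  exact le_of_mul_le_mul_left h5 hn'

end Pool.Agent.W909.RK
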