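import Pool.Agent.W909.RK.Defs

set_option autoImplicit false

open Finset

namespace Pool.Agent.W909.RK

open Pool.Agent.H120R2.Clique

lemma card_quads {N : ℕ} (S : Finset (Fin N)) (k : ℕ) (hk : k ≤ 4) :
    #{Q ∈ (univ : Finset (Fin N)).powersetCard 4 | #(Q ∩ S) = k} =
      (#S).choose k * (N - #S).choose (4 - k) := by
  have h1 : #Sᶜ = N - #S := by
    rw [card_compl, Fintype.card_fin]
  rw [← h1, ← card_powersetCard k S, ← card_powersetCard (4 - k) Sᶜ, ← card_product]
  refine card_bij' (fun Q _ => (Q ∩ S, Q \ S)) (fun p _ => p.1 ∪ p.2) ?_ ?_ ?_ ?_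
  · intro Q hQ
    rw [mem_filter, mem_powersetCard_univ] at hQ
    rw [mem_product, mem_powersetCard, mem_powersetCard]
    have h2 := card_inter_add_card_sdiff Q S
    refine ⟨⟨inter_subset_right, hQ.2⟩, ?_, ?_⟩
    · intro x hx
      rw [mem_compl]
      exact (mem_sdiff.1 hx).2
    · show #(Q \ S) = 4 - k
      have := hQ.1
      have := hQ.2
      omega
  · rintro ⟨A, B⟩ hp
    rw [mem_product, mem_powersetCard, mem_powersetCard] at hp
    obtain ⟨⟨hA, hAk⟩, hB, hBk⟩ := hp
    simp only at hA hAk hB hBk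
    have hd : Disjoint B S := (disjoint_compl_left (a := S)).mono_left hB
    have hi : (A ∪ B) ∩ S = A := by
      rw [union_inter_distrib_right, inter_eq_left.2 hA, disjoint_iff_inter_eq_empty.1 hd, union_empty]
    rw [mem_filter, mem_powersetCard_univ]
    refine ⟨?_, ?_⟩
    · show #(A ∪ B) = 4
      rw [card_union_of_disjoint (hd.mono_right hA).symm]
      omega
    · show #((A ∪ B) ∩ S) = k
      rw [hi, hAk]
  · intro Q hQ
    show (Q ∩ S) ∪ (Q \ S) = Q
    rw [union_comm]
    exact sdiff_union_inter Q S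
  · rintro ⟨A, B⟩ hp
    rw [mem_product, mem_powersetCard, mem_powersetCard] at hp
    obtain ⟨⟨hA, hAk⟩, hB, hBk⟩ := hp
    simp only at hA hAk hB hBk
    have hd : Disjoint B S := (disjoint_compl_left (a := S)).mono_left hB
    have hi : (A ∪ B) ∩ S = A := by
      rw [union_inter_distrib_right, inter_eq_left.2 hA, disjoint_iff_inter_eq_empty.1 hd, union_empty]
    have hj : (A ∪ B) \ S = B := by
      rw [union_sdiff_distrib, sdiff_eq_empty_iff_subset.2 hA, empty_union, sdiff_eq_self_of_disjoint hd]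
    show ((A ∪ B) ∩ S, (A ∪ B) \ S) = (A, B)
    rw [hi, hj]

/-- (A) counting four-sets by their intersection with a given set -/
theorem sum_quads {N : ℕ} (b : Fin N → ℕ) (hb : ∀ i, b i = 0 ∨ b i = 1) (w : ℕ → ℝ) :
    ∑ Q ∈ (univ : Finset (Fin N)).powersetCard 4, w (∑ i ∈ Q, b i) =
      ∑ k ∈ range 5, ((∑ i, b i).choose k * (N - ∑ i, b i).choose (4 - k) : ℕ) * w k := by
  have hS : ∀ Q : Finset (Fin N), ∑ i ∈ Q, b i = #(Q ∩ ({i | b i = 1} : Finset (Fin N))) := by
    intro Q
    rw [card_eq_sum_ones, ← sum_subset (inter_subset_left (s₁ := Q)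
      (s₂ := ({i | b i = 1} : Finset (Fin N)))) (f := b)]
    · apply sum_congr rfl
      intro i hi
      rw [mem_inter, mem_filter] at hi
      exact hi.2.2
    · intro i hi hi'
      rcases hb i with h | h
      · exact h
      · exact absurd (mem_inter.2 ⟨hi, mem_filter.2 ⟨mem_univ _, h⟩⟩) hi'
  have hU : ∑ i, b i = #({i | b i = 1} : Finset (Fin N)) := by
    rw [hS univ, univ_inter]
  rw [hU]
  set S : Finset (Fin N) := {i | b i = 1} with hSd
  have hmap : ∀ Q ∈ (univ : Finset (Fin N)).powersetCard 4, #(Q ∩ S) ∈ range 5 := by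
    intro Q hQ
    rw [mem_powersetCard_univ] at hQ
    rw [mem_range]
    have := card_le_card (inter_subset_left (s₁ := Q) (s₂ := S))
    omega
  rw [sum_congr rfl fun Q _ => by rw [hS Q], ← sum_fiberwise_of_maps_to hmap]
  apply sum_congr rfl
  intro k hk
  rw [← card_quads S k (by rw [mem_range] at hk; omega)]
  rw [sum_congr rfl (g := fun _ => w k) (fun Q hQ => by rw [(mem_filter.1 hQ).2]), sum_const,
    nsmul_eq_mul]

end Pool.Agent.W909.RK
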